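import Pool.Agent.V5helper6.Mixed2
import Pool.Agent.Helper431.CycleIso

set_option autoImplicit false

/-!
# Mixed metric dimension and cyclomatic number of 2-connected graphs

Every 2-connected graph `G` which is not a cycle satisfies `mdim(G) ≤ 2 c(G)`.

Proof. Let `b` be a vertex of degree at least three. As `G - b` is connected there is a root `r` such
that `b` has two neighbours which are not farther from `r` than `b`. Choose a breadth first
search tree from `r` such that every vertex which can be reached from `r` by a geodesic avoiding `b`
has a parent of this kind. The root together with the ends of the `c(G)` non-tree edges is a mixed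
resolving set. If `b` is in two non-tree edges then this set has at most `2 c(G)` elements. Otherwise
`b` is in exactly one non-tree edge, this edge does not go down, and `b` has a child; then `b` can be
removed from the set.
-/

namespace Pool.Agent.Results.MP_ca4ce9_co.MixedDimTwoConnected

open SimpleGraph

variable {V : Type*}

/-- the distance `d(w, e) = min {d(w, u), d(w, v)}` of a vertex `w` and an edge `e = uv` -/
noncomputable def edgeDist (G : SimpleGraph V) (w : V) (e : Sym2 V) : ℕ :=
  Sym2.lift ⟨fun u v => min (G.dist w u) (G.dist w v), fun _ _ => min_comm _ _⟩ e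

/-- the distance of a vertex `w` and an element of `V(G) ∪ E(G)` -/
noncomputable def elemDist (G : SimpleGraph V) (w : V) : V ⊕ G.edgeSet → ℕ
  | Sum.inl v => G.dist w v
  | Sum.inr e => edgeDist G w e.1

/-- `S` is a mixed resolving set: any two distinct elements of `V(G) ∪ E(G)` have different
distances to some element of `S`. -/
def IsMixedResolving (G : SimpleGraph V) (S : Finset V) : Prop :=
  ∀ x y : V ⊕ G.edgeSet, x ≠ y → ∃ s ∈ S, elemDist G s x ≠ elemDist G s y

/-- the mixed metric dimension: the smallest size of a mixed resolving set -/
noncomputable def mdim (G : SimpleGraph V) : ℕ :=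
  sInf {k | ∃ S : Finset V, S.card = k ∧ IsMixedResolving G S}

/-- the cyclomatic number `c(G) = m - n + 1` -/
noncomputable def cyclomatic (G : SimpleGraph V) : ℤ :=
  (G.edgeSet.ncard : ℤ) - (Nat.card V : ℤ) + 1

/-- `G` is 2-connected: it is connected, has at least three vertices and no cut-vertex. -/
def TwoConnected (G : SimpleGraph V) : Prop :=
  G.Connected ∧ 3 ≤ Nat.card V ∧ ∀ v : V, (G.induce {w | w ≠ v}).Connected

/-- **Mixed metric dimension of 2-connected graphs.** Every finite 2-connected graph `G` which is
not a cycle satisfies `mdim(G) ≤ 2 c(G)` (and the minimum defining `mdim(G)` exists). -/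
theorem result (V : Type*) [Finite V] (G : SimpleGraph V) (h2 : TwoConnected G)
    (hcycle : ∀ n : ℕ, IsEmpty (G ≃g cycleGraph n)) :
    (∃ S : Finset V, S.card = mdim G ∧ IsMixedResolving G S) ∧
      (mdim G : ℤ) ≤ 2 * cyclomatic G := by
  classical
  haveI := Fintype.ofFinite V
  obtain ⟨hc, hn, hcut⟩ := h2
  rw [Nat.card_eq_fintype_card] at hn
  -- all degrees are at least two
  have hdeg : ∀ v, 2 ≤ G.degree v := by
    intro v
    by_contra hlt
    push Not at hlt
    have hne : 0 < G.degree v := by
      haveI : Nontrivial V := Fintype.one_lt_card_iff_nontrivial.mp (by omega)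
      exact hc.preconnected.degree_pos_of_nontrivial v
    have h1 : G.degree v = 1 := by omega
    rw [← card_neighborFinset_eq_degree, Finset.card_eq_one] at h1
    obtain ⟨u, hu⟩ := h1
    have huv : G.Adj v u := by rw [← mem_neighborFinset, hu]; simp
    -- a third vertex
    obtain ⟨w, hwv, hwu⟩ : ∃ w, w ≠ v ∧ w ≠ u := by
      by_contra hcon
      push Not at hcon
      have : (Finset.univ : Finset V) ⊆ {v, u} := by
        intro w _
        rw [Finset.mem_insert, Finset.mem_singleton]
        by_cases h : w = v
        · exact Or.inl h
        · exact Or.inr (hcon w h)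
      have h4 := Finset.card_le_card this
      have h5 : ({v, u} : Finset V).card ≤ 2 := Finset.card_le_two
      rw [Finset.card_univ] at h4
      omega
    -- in `G - u` the vertex `v` is isolated
    have hcu := hcut u
    obtain ⟨W⟩ := hcu.preconnected ⟨v, huv.ne⟩ ⟨w, hwu⟩
    cases W with
    | nil => exact hwv rfl
    | cons h q =>
      rename_i x
      have hx : G.Adj v x.1 := h
      have : x.1 ∈ G.neighborFinset v := by rw [mem_neighborFinset]; exact hx
      rw [hu, Finset.mem_singleton] at this
      exact x.2 this
  -- a vertex of degree three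
  obtain ⟨b, hb⟩ : ∃ v : V, 3 ≤ G.degree v := by
    by_contra hcon
    push Not at hcon
    obtain ⟨n, ⟨e⟩⟩ := Pool.Agent.Helper431.exists_iso_cycleGraph hc hdeg
      (fun v => by have := hcon v; omega)
    exact (hcycle n).false e
  obtain ⟨S, hS, hvv, hve, hee⟩ := Pool.Agent.V5helper6.Mixed.main hc hdeg hb (hcut b)
  have hres : IsMixedResolving G S := by
    intro x y hxy
    rcases x with v | ⟨e, he⟩
    · rcases y with w | ⟨f, hf⟩
      · exact hvv v w (fun h => hxy (by rw [h]))
      · induction f with
        | _ a c => exact hve v a c hf
    · rcases y with w | ⟨f, hf⟩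
      · induction e with
        | _ a c =>
          obtain ⟨s, hs, h⟩ := hve w a c he
          exact ⟨s, hs, h.symm⟩
      · induction e with
        | _ a c =>
          induction f with
          | _ a' c' =>
            exact hee a c a' c' he hf (fun h => hxy (by simp only [h]))
  have hcycl : cyclomatic G = (G.edgeFinset.card : ℤ) - (Fintype.card V : ℤ) + 1 := by
    unfold cyclomatic
    rw [Nat.card_eq_fintype_card, ← coe_edgeFinset, Set.ncard_coe_finset]
  have hmem : S.card ∈ {k | ∃ S : Finset V, S.card = k ∧ IsMixedResolving G S} := ⟨S, rfl, hres⟩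
  refine ⟨Nat.sInf_mem ⟨_, hmem⟩, ?_⟩
  have hle : mdim G ≤ S.card := Nat.sInf_le hmem
  rw [hcycl]
  have : (mdim G : ℤ) ≤ S.card := by exact_mod_cast hle
  linarith

end Pool.Agent.Results.MP_ca4ce9_co.MixedDimTwoConnected
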